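import Pool.Agent.Helper74.FP.Goals

/-!
# Project FP, packet F4: the core
-/

set_option autoImplicit false

namespace Pool.Agent.Helper26.FP

open Pool.Agent.Helper52.Wq2 Pool.Agent.Helper61.NW Pool.Agent.Helper74.FP Monoid Monoid.CoprodI

universe u

variable {ι : Type} {A B : ι → Type u} [∀ i, Group (A i)] [∀ i, Group (B i)]

/-- the map on words -/
def FW (r : ∀ i, A i → B i) (hr : ∀ i a, a ≠ 1 → r i a ≠ 1) (w : Word A) : Word B where
  toList := w.toList.map (fun l => ⟨l.1, r l.1 l.2⟩)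
  ne_one := by
    intro l hl
    rw [List.mem_map] at hl
    obtain ⟨l', hl', rfl⟩ := hl
    exact hr _ _ (w.ne_one l' hl')
  chain_ne := by
    rw [List.isChain_map]
    exact w.chain_ne

theorem fstIdx_FW (r : ∀ i, A i → B i) (hr : ∀ i a, a ≠ 1 → r i a ≠ 1) (w : Word A) :
    (FW r hr w).fstIdx = w.fstIdx := by
  unfold Word.fstIdx FW
  simp only [List.head?_map, Option.map_map]
  rfl

theorem FW_inj (r : ∀ i, A i → B i) (hr : ∀ i a, a ≠ 1 → r i a ≠ 1)
    (hinj : ∀ i, Function.Injective (r i)) : Function.Injective (FW r hr) := by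
  intro w w' h
  have h1 : w.toList.map (fun l => (⟨l.1, r l.1 l.2⟩ : Σ i, B i)) =
      w'.toList.map (fun l => (⟨l.1, r l.1 l.2⟩ : Σ i, B i)) := congrArg Word.toList h
  have h2 : Function.Injective (fun l : Σ i, A i => (⟨l.1, r l.1 l.2⟩ : Σ i, B i)) := by
    rintro ⟨i, a⟩ ⟨j, b⟩ he
    simp only [Sigma.mk.injEq] at he
    obtain ⟨rfl, he⟩ := he
    rw [hinj i (eq_of_heq he)]
  exact Word.ext (List.map_injective_iff.2 h2 h1)

/-- the map to the free product -/
def gW (r : ∀ i, A i → B i) (hr : ∀ i a, a ≠ 1 → r i a ≠ 1) (w : Word A) : CoprodI B :=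
  (FW r hr w).prod

theorem gW_cons (r : ∀ i, A i → B i) (hr : ∀ i a, a ≠ 1 → r i a ≠ 1) {i : ι} (a : A i)
    (t : Word A) (h1 : t.fstIdx ≠ some i) (h2 : a ≠ 1) :
    gW r hr (Word.cons a t h1 h2) = of (r i a) * gW r hr t := by
  unfold gW FW Word.prod Word.cons
  simp only [List.map_cons, List.prod_cons]

open scoped Classical in
theorem prod_inj : Function.Injective (Word.prod : Word B → CoprodI B) :=
  (Word.equiv (M := B)).symm.injective

open scoped Classical in
theorem gW_pair (r : ∀ i, A i → B i) (hr : ∀ i a, a ≠ 1 → r i a ≠ 1) (h1 : ∀ i, r i 1 = 1)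
    (i : ι) (w : Word A) :
    gW r hr w = of (r i (Word.equivPair i w).head) * gW r hr (Word.equivPair i w).tail := by
  have hw : w = Word.rcons (Word.equivPair i w) := ((Word.equivPair i).symm_apply_apply w).symm
  generalize hp : Word.equivPair i w = p at hw
  rw [hw]
  by_cases h : p.head = 1
  · rw [Word.rcons, dif_pos h, h, h1, map_one, one_mul]
  · rw [Word.rcons, dif_neg h, gW_cons]

open scoped Classical in
theorem UL (r : ∀ i, A i → B i) (hr : ∀ i a, a ≠ 1 → r i a ≠ 1)
    (hinj : ∀ i, Function.Injective (r i)) {i : ι} {b b' : B i} {t t' : Word A}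
    (ht : t.fstIdx ≠ some i) (ht' : t'.fstIdx ≠ some i)
    (he : of b * gW r hr t = of b' * gW r hr t') : b = b' ∧ t = t' := by
  have k1 : (FW r hr t).fstIdx ≠ some i := by rw [fstIdx_FW]; exact ht
  have k2 : (FW r hr t').fstIdx ≠ some i := by rw [fstIdx_FW]; exact ht'
  have e1 := Word.prod_rcons (M := B) (⟨b, FW r hr t, k1⟩ : Word.Pair B i)
  have e2 := Word.prod_rcons (M := B) (⟨b', FW r hr t', k2⟩ : Word.Pair B i)
  have e3 := Word.rcons_inj (prod_inj (e1.trans (he.trans e2.symm)))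
  have e4 := congrArg Word.Pair.head e3
  have e5 := congrArg Word.Pair.tail e3
  exact ⟨e4, FW_inj r hr hinj e5⟩

theorem CL (r : ∀ i, A i → B i) (hr : ∀ i a, a ≠ 1 → r i a ≠ 1) {i j : ι} (hij : i ≠ j)
    {b : B i} {b' : B j} {t t' : Word A}
    (ht : t.fstIdx ≠ some i) (ht' : t'.fstIdx ≠ some j)
    (he : of b * gW r hr t = of b' * gW r hr t') : b = 1 ∨ b' = 1 := by
  by_contra hcon
  push Not at hcon
  have k1 : (FW r hr t).fstIdx ≠ some i := by rw [fstIdx_FW]; exact ht
  have k2 : (FW r hr t').fstIdx ≠ some j := by rw [fstIdx_FW]; exact ht'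
  have e1 := Word.prod_cons i b (FW r hr t) hcon.1 k1
  have e2 := Word.prod_cons j b' (FW r hr t') hcon.2 k2
  have e3 := congrArg Word.fstIdx (prod_inj (e1.trans (he.trans e2.symm)))
  rw [Word.fstIdx_cons, Word.fstIdx_cons] at e3
  exact hij (Option.some.inj e3)

theorem conn_sub {V : Type*} {G : SimpleGraph V} {P Q C : Set V} (hP : Conn G P) (hPQ : P ⊆ Q)
    (hcl : ∀ a ∈ C, ∀ b ∈ Q, G.Adj a b → b ∈ C) (hne : ∃ x, x ∈ P ∧ x ∈ C) : P ⊆ C := by
  obtain ⟨x, hx1, hx2⟩ := hne
  have := hP.2 (P ∩ C) Set.inter_subset_left ⟨x, hx1, hx2⟩ (by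
    rintro a ⟨_, ha⟩ b hb hab
    exact ⟨hb, hcl a ha b (hPQ hb) hab⟩)
  exact fun y hy => (this hy).2

open scoped Classical in
/-- **F4.** -/
theorem f4 : F4Stmt.{u} := by
  intro ι A B _ _ S T V hS hT hV h1V
  -- representatives
  have hex : ∀ i (a : A i), ∃ b : B i, b ∈ V i a ∧ (a = 1 → b = 1) := by
    intro i a
    by_cases ha : a = 1
    · exact ⟨1, by rw [ha]; exact h1V i, fun _ => rfl⟩
    · obtain ⟨b, hb⟩ := ((hV i).1 a).1
      exact ⟨b, hb, fun h => absurd h ha⟩
  choose r hrV hr1' using hex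
  have hr1 : ∀ i, r i 1 = 1 := fun i => hr1' i 1 rfl
  have hr : ∀ i a, a ≠ 1 → r i a ≠ 1 := by
    intro i a ha h
    have := hrV i a
    rw [h] at this
    exact ha ((hV i).2.1 _ _ _ this (h1V i))
  have hinj : ∀ i, Function.Injective (r i) := by
    intro i a a' h
    have := hrV i a
    rw [h] at this
    exact (hV i).2.1 _ _ _ this (hrV i a')
  set g := gW r hr with hg
  set P : ι → Word A → Set (CoprodI B) := fun i w =>
    (fun b : B i => of b * g (Word.equivPair i w).tail) '' V i (Word.equivPair i w).head with hP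
  have hgP : ∀ i w, g w ∈ P i w := fun i w =>
    ⟨r i (Word.equivPair i w).head, hrV i _, (gW_pair r hr hr1 i w).symm⟩
  -- disjointness
  have D2 : ∀ i w w' y, y ∈ P i w → y ∈ P i w' → w = w' := by
    rintro i w w' y ⟨b, hb, rfl⟩ ⟨b', hb', he⟩
    obtain ⟨e1, e2⟩ := UL r hr hinj (Word.equivPair i w').fstIdx_ne
      (Word.equivPair i w).fstIdx_ne he
    rw [e1] at hb'
    have e3 := (hV i).2.1 _ _ _ hb' hb
    exact ((Word.equivPair i).injective (Word.Pair.ext e3 e2)).symm
  have D3 : ∀ i w (b : B i), b ∈ V i (Word.equivPair i w).head → b = 1 →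
      of b * g (Word.equivPair i w).tail = g w := by
    intro i w b hb hb1
    rw [hb1] at hb ⊢
    have h2 : (Word.equivPair i w).head = 1 := (hV i).2.1 _ _ _ hb (h1V i)
    have h3 := gW_pair r hr hr1 i w
    rw [h2, hr1] at h3
    exact h3.symm
  have D4 : ∀ i j w w' y, y ∈ P i w → y ∈ P j w' → w = w' := by
    intro i j w w' y hy hy'
    by_cases hij : i = j
    · subst hij
      exact D2 i w w' y hy hy'
    · have hy0 := hy
      have hy0' := hy'
      obtain ⟨b, hb, h5⟩ := hy
      obtain ⟨b', hb', h6⟩ := hy'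
      rcases CL r hr hij (Word.equivPair i w).fstIdx_ne (Word.equivPair j w').fstIdx_ne
        (h5.trans h6.symm) with h7 | h7
      · have h8 := D3 i w b hb h7
        have h9 : y = g w := by rw [← h5]; exact h8
        exact D2 j w w' y (by rw [h9]; exact hgP j w) hy0'
      · have h8 := D3 j w' b' hb' h7
        have h9 : y = g w' := by rw [← h6]; exact h8
        exact D2 i w w' y hy0 (by rw [h9]; exact hgP i w')
  -- the branch sets
  set Q : Word A → Set (CoprodI B) := fun w => {y | y = g w ∨ ∃ i, y ∈ P i w} with hQ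
  have hPQ : ∀ i w, P i w ⊆ Q w := fun i w y hy => Or.inr ⟨i, hy⟩
  have ginj : Function.Injective g := fun w w' h => FW_inj r hr hinj (prod_inj h)
  have hadj : ∀ i (b b' : B i) (x : CoprodI B), (cayL (T i)).Adj b b' →
      (cayL (US T)).Adj (of b * x) (of b' * x) := by
    intro i b b' x hbb
    unfold cayL at hbb ⊢
    rw [SimpleGraph.fromRel_adj] at hbb ⊢
    obtain ⟨hne, h2⟩ := hbb
    refine ⟨fun h => hne (of_injective i (mul_right_cancel h)), ?_⟩
    rcases h2 with h2 | h2
    · left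
      refine ⟨i, _, h2, ?_⟩
      rw [map_mul, map_inv]; group
    · right
      refine ⟨i, _, h2, ?_⟩
      rw [map_mul, map_inv]; group
  have hPc : ∀ i w, Conn (cayL (US T)) (P i w) := by
    intro i w
    exact Conn.image ((hV i).1 _) _ (fun a _ b _ hab => Or.inr (hadj i a b _ hab))
  refine ⟨fun x => Q (Word.equiv x), ?_, ?_, ?_⟩
  · intro x
    refine ⟨⟨g _, Or.inl rfl⟩, ?_⟩
    intro C hC hCne hcl
    have hgC : g (Word.equiv x) ∈ C := by
      obtain ⟨a, ha⟩ := hCne
      rcases hC ha with h2 | ⟨i, h2⟩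
      · exact h2 ▸ ha
      · exact conn_sub (hPc i _) (hPQ i _) hcl ⟨a, h2, ha⟩ (hgP i _)
    rintro y (h2 | ⟨i, h2⟩)
    · rw [h2]; exact hgC
    · exact conn_sub (hPc i _) (hPQ i _) hcl ⟨_, hgP i _, hgC⟩ h2
  · rintro x x' y hy hy'
    refine (Word.equiv (M := A)).injective ?_
    rcases hy with h2 | ⟨i, h2⟩ <;> rcases hy' with h3 | ⟨j, h3⟩
    · exact ginj (h2.symm.trans h3)
    · exact D2 j _ _ y (by rw [h2]; exact hgP j _) h3
    · exact D2 i _ _ y h2 (by rw [h3]; exact hgP i _)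
    · exact D4 i j _ _ y h2 h3
  · have key : ∀ x x' : CoprodI A, x' * x⁻¹ ∈ US S →
        ∃ a ∈ Q (Word.equiv x), ∃ b ∈ Q (Word.equiv x'), (cayL (US T)).Adj a b := by
      rintro x x' ⟨i, s, hs, hxs⟩
      have hx' : x' = of s * x := by rw [← hxs]; group
      have hw : Word.equiv x' = (of s : CoprodI A) • Word.equiv x := by
        rw [hx']
        exact mul_smul (of s) x (Word.empty : Word A)
      have hpair := Word.equivPair_smul_same (M := A) s (Word.equiv x)
      rw [← hw] at hpair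
      have hs1 : s ≠ 1 := fun h => (hS i).2.2 (h ▸ hs)
      have hA : (cayL (S i)).Adj (Word.equivPair i (Word.equiv x)).head
          (s * (Word.equivPair i (Word.equiv x)).head) := by
        unfold cayL
        rw [SimpleGraph.fromRel_adj]
        refine ⟨fun h => hs1 ?_, Or.inl ?_⟩
        · exact mul_right_cancel (b := (Word.equivPair i (Word.equiv x)).head)
            (by rw [one_mul]; exact h.symm)
        · rw [mul_inv_cancel_right]; exact hs
      obtain ⟨b, hb, b', hb', hbb⟩ := (hV i).2.2 _ _ hA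
      refine ⟨of b * g (Word.equivPair i (Word.equiv x)).tail, hPQ i _ ⟨b, hb, rfl⟩,
        of b' * g (Word.equivPair i (Word.equiv x)).tail, hPQ i _ ?_, hadj i b b' _ hbb⟩
      refine ⟨b', ?_, ?_⟩
      · rw [hpair]; exact hb'
      · simp only; rw [hpair]
    intro x x' hxx
    unfold cayL at hxx
    rw [SimpleGraph.fromRel_adj] at hxx
    rcases hxx.2 with h2 | h2
    · exact key x x' h2
    · obtain ⟨a, ha, b, hb, hab⟩ := key x' x h2
      exact ⟨b, hb, a, ha, hab.symm⟩

end Pool.Agent.Helper26.FP
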